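import Pool.Agent.H94.G6.M63
import Pool.Agent.H94.G6.M94
import Pool.Agent.H94.G6.M95

/-!
# MQ SNLocN: the normal bundle half of the package of a saddle-node whose weak separatrix is algebraic

`v = x^(k+1) a ∂/∂x + y b ∂/∂y`.  The field is `conj (a_x x' / a + b_y y' / b) + κ (1 - χ) conj S`, `S = x^k a ζ'`, with `χ = ct e |x| ct r |y|`.
The derivative of the first factor of `χ` has the good sign, the derivative of the second one gives an error of size `e^k / r^2 |y'|^2`.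
-/

set_option autoImplicit false

open Topology Filter Metric MvPolynomial Asymptotics MeasureTheory

noncomputable section

namespace Pool.Agent.MQ.SNL

open Pool.Agent.H36.BP (EN fs)
open Pool.Agent.H30M (tau tau_nonneg)
open Pool.Agent.MQ Pool.Agent.MQ.AxisA

/-- a curve through the saddle-node is in the strong separatrix (if it is not in the weak one) -/
theorem ev_zero {x y a b : ℂ → ℂ} {z₀ : ℂ} {k : ℕ} (hk : 1 ≤ k) (hx : AnalyticAt ℂ x z₀) (hy : AnalyticAt ℂ y z₀) (ha : AnalyticAt ℂ a z₀)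
    (hb : AnalyticAt ℂ b z₀) (ha0 : a z₀ ≠ 0) (hb0 : b z₀ ≠ 0) (hx0 : x z₀ = 0) (hy0 : y z₀ = 0)
    (hom : ∀ᶠ z in 𝓝 z₀, x z ^ (k + 1) * a z * deriv y z = y z * b z * deriv x z) (hyx : ∀ᶠ z in 𝓝 z₀, y z = 0 → x z = 0) :
    ∀ᶠ z in 𝓝 z₀, x z = 0 := by
  by_cases hyt : analyticOrderAt y z₀ = ⊤
  · filter_upwards [analyticOrderAt_eq_top.1 hyt, hyx] with z h1 h2
    exact h2 h1
  · rw [← analyticOrderAt_eq_top]
    by_contra hxt
    have hx' : AnalyticAt ℂ (deriv x) z₀ := hx.deriv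
    have hy' : AnalyticAt ℂ (deriv y) z₀ := hy.deriv
    have e1 : analyticOrderAt (deriv x) z₀ + 1 = analyticOrderAt x z₀ := by
      have := hx.analyticOrderAt_deriv_add_one
      rw [hx0] at this
      simpa using this
    have e2 : analyticOrderAt (deriv y) z₀ + 1 = analyticOrderAt y z₀ := by
      have := hy.analyticOrderAt_deriv_add_one
      rw [hy0] at this
      simpa using this
    have e3 : analyticOrderAt (fun z => x z ^ (k + 1) * a z * deriv y z) z₀ = analyticOrderAt (fun z => y z * b z * deriv x z) z₀ :=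
      analyticOrderAt_congr hom
    have e4 : analyticOrderAt (fun z => x z ^ (k + 1) * a z * deriv y z) z₀ = (k + 1) • analyticOrderAt x z₀ + 0 + analyticOrderAt (deriv y) z₀ := by
      have h1 : (fun z => x z ^ (k + 1) * a z * deriv y z) = x ^ (k + 1) * a * deriv y := rfl
      rw [h1, analyticOrderAt_mul ((hx.pow (k + 1)).mul ha) hy', analyticOrderAt_mul (hx.pow (k + 1)) ha, analyticOrderAt_pow hx,
        ha.analyticOrderAt_eq_zero.2 ha0]
    have e5 : analyticOrderAt (fun z => y z * b z * deriv x z) z₀ = analyticOrderAt y z₀ + 0 + analyticOrderAt (deriv x) z₀ := by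
      have h1 : (fun z => y z * b z * deriv x z) = y * b * deriv x := rfl
      rw [h1, analyticOrderAt_mul (hy.mul hb) hx', analyticOrderAt_mul hy hb, hb.analyticOrderAt_eq_zero.2 hb0]
    rw [e4, e5] at e3
    obtain ⟨m, hm⟩ := ENat.ne_top_iff_exists.1 hxt
    obtain ⟨n, hn⟩ := ENat.ne_top_iff_exists.1 hyt
    have hm1 : analyticOrderAt (deriv x) z₀ ≠ ⊤ := by
      intro h
      rw [h, top_add] at e1
      exact hxt e1.symm
    have hn1 : analyticOrderAt (deriv y) z₀ ≠ ⊤ := by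
      intro h
      rw [h, top_add] at e2
      exact hyt e2.symm
    obtain ⟨m', hm'⟩ := ENat.ne_top_iff_exists.1 hm1
    obtain ⟨n', hn'⟩ := ENat.ne_top_iff_exists.1 hn1
    rw [← hm, ← hm'] at e1
    rw [← hn, ← hn'] at e2
    rw [← hm, ← hn, ← hm', ← hn'] at e3
    have f1 : m' + 1 = m := by exact_mod_cast e1
    have f2 : n' + 1 = n := by exact_mod_cast e2
    have f3 : (k + 1) * m + n' = n + m' := by
      have : ((k + 1 : ℕ) : ℕ∞) * m + n' = n + m' := by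
        simpa [nsmul_eq_mul] using e3
      exact_mod_cast this
    nlinarith [Nat.mul_le_mul hk (show 1 ≤ m by omega)]

/-! ### the field -/

section field

variable {x y S G : ℂ → ℂ} {κ e r : ℝ}

/-- the cut-off -/
def ch (x y : ℂ → ℂ) (e r : ℝ) (z : ℂ) : ℝ := ct e ‖x z‖ * ct r ‖y z‖

/-- the field -/
def fld (x y S G : ℂ → ℂ) (κ e r : ℝ) (z : ℂ) : ℂ :=
  (starRingEnd ℂ) (G z) + ((κ * (1 - ch x y e r z) : ℝ) : ℂ) * (starRingEnd ℂ) (S z)

theorem ch_nonneg (z : ℂ) : 0 ≤ ch x y e r z := mul_nonneg (ct_nonneg _ _) (ct_nonneg _ _)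

theorem ch_le_one (z : ℂ) : ch x y e r z ≤ 1 := mul_le_one₀ (ct_le_one _ _) (ct_nonneg _ _) (ct_le_one _ _)

theorem contDiffAt_ch {z : ℂ} (hx : AnalyticAt ℂ x z) (hy : AnalyticAt ℂ y z) (he : 0 < e) (hr : 0 < r) : ContDiffAt ℝ 1 (ch x y e r) z :=
  (contDiffAt_ct hx he).mul (contDiffAt_ct hy hr)

theorem gr_ch {z : ℂ} (hx : AnalyticAt ℂ x z) (hy : AnalyticAt ℂ y z) (he : 0 < e) (hr : 0 < r) :
    gr (ch x y e r) z = ((ct e ‖x z‖ : ℝ) : ℂ) * (-((cd r ‖y z‖ : ℝ) : ℂ) * (starRingEnd ℂ) (deriv y z / y z)) +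
      ((ct r ‖y z‖ : ℝ) : ℂ) * (-((cd e ‖x z‖ : ℝ) : ℂ) * (starRingEnd ℂ) (deriv x z / x z)) := by
  have h := gr_mul (u := fun w => ct e ‖x w‖) (v := fun w => ct r ‖y w‖) ((contDiffAt_ct hx he).differentiableAt (by norm_num))
    ((contDiffAt_ct hy hr).differentiableAt (by norm_num))
  rw [gr_ct hx he, gr_ct hy hr] at h
  exact h

theorem contDiffAt_fld {z : ℂ} (hx : AnalyticAt ℂ x z) (hy : AnalyticAt ℂ y z) (hS : AnalyticAt ℂ S z) (hG : AnalyticAt ℂ G z) (he : 0 < e)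
    (hr : 0 < r) : ContDiffAt ℝ 1 (fld x y S G κ e r) z := by
  have h1 : ContDiffAt ℝ 1 (fun w => κ * (1 - ch x y e r w)) z := contDiffAt_const.mul (contDiffAt_const.sub (contDiffAt_ch hx hy he hr))
  exact (contDiffAt_conj_holo hG).add ((Complex.ofRealCLM.contDiff.contDiffAt.comp z h1).mul (contDiffAt_conj_holo hS))

theorem dv_fld {z : ℂ} (hx : AnalyticAt ℂ x z) (hy : AnalyticAt ℂ y z) (hS : AnalyticAt ℂ S z) (hG : AnalyticAt ℂ G z) (he : 0 < e)
    (hr : 0 < r) : dv (fld x y S G κ e r) z = -(κ * ip (gr (ch x y e r) z) ((starRingEnd ℂ) (S z))) := by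
  have hc : DifferentiableAt ℝ (ch x y e r) z := (contDiffAt_ch hx hy he hr).differentiableAt (by norm_num)
  have h1 : ContDiffAt ℝ 1 (fun w => κ * (1 - ch x y e r w)) z := contDiffAt_const.mul (contDiffAt_const.sub (contDiffAt_ch hx hy he hr))
  have h2 : ContDiffAt ℝ 1 (fun w => (starRingEnd ℂ) (S w)) z := contDiffAt_conj_holo hS
  have h3 : ContDiffAt ℝ 1 (fun w => (starRingEnd ℂ) (G w)) z := contDiffAt_conj_holo hG
  have h4 : ContDiffAt ℝ 1 (fun w => ((κ * (1 - ch x y e r w) : ℝ) : ℂ) * (starRingEnd ℂ) (S w)) z :=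
    (Complex.ofRealCLM.contDiff.contDiffAt.comp z h1).mul h2
  have e1 : dv (fld x y S G κ e r) z = dv (fun w => (starRingEnd ℂ) (G w)) z +
      dv (fun w => ((κ * (1 - ch x y e r w) : ℝ) : ℂ) * (starRingEnd ℂ) (S w)) z :=
    dv_add (h3.differentiableAt (by norm_num)) (h4.differentiableAt (by norm_num))
  have e2 : gr (fun w => κ * (1 - ch x y e r w)) z = (κ : ℂ) * -gr (ch x y e r) z := by
    have h5 : DifferentiableAt ℝ (fun w => 1 - ch x y e r w) z := (differentiableAt_const _).sub hc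
    have h6 := gr_sub (differentiableAt_const (1 : ℝ)) hc
    rw [gr_const_mul κ h5, h6, gr_const, zero_sub]
  rw [e1, dv_conj hG.differentiableAt, dv_mul (h1.differentiableAt (by norm_num)) (h2.differentiableAt (by norm_num)), dv_conj hS.differentiableAt,
    mul_zero, zero_add, zero_add, e2, ip_smul_left, ip_neg_left]
  ring

/-- the error -/
theorem ip_ch_le {M : ℝ} (hM0 : 0 < M) (hM : ∀ t, deriv Real.smoothTransition t ≤ M) {z : ℂ} (hx : AnalyticAt ℂ x z) (hy : AnalyticAt ℂ y z) (he : 0 < e)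
    (hr : 0 < r) (hxS : deriv x z = x z * S z) {C : ℝ} (hC : 0 ≤ C) {k : ℕ} (hSy : ‖S z‖ * ‖y z‖ ≤ C * ‖x z‖ ^ k * ‖deriv y z‖) :
    ip (gr (ch x y e r) z) ((starRingEnd ℂ) (S z)) ≤ 8 * M * C * e ^ k / r ^ 2 * ‖deriv y z‖ ^ 2 := by
  have e1 : ((cd e ‖x z‖ : ℝ) : ℂ) * (starRingEnd ℂ) (deriv x z / x z) = ((cd e ‖x z‖ : ℝ) : ℂ) * (starRingEnd ℂ) (S z) := by
    by_cases h0 : x z = 0
    · have : cd e ‖x z‖ = 0 := cd_eq_zero he (Or.inl (by rw [h0, norm_zero]; positivity))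
      rw [this]
      simp
    · rw [hxS, mul_div_cancel_left₀ _ h0]
  have e3 : ip (gr (ch x y e r) z) ((starRingEnd ℂ) (S z)) =
      -(ct e ‖x z‖ * cd r ‖y z‖ * ip ((starRingEnd ℂ) (deriv y z / y z)) ((starRingEnd ℂ) (S z))) - ct r ‖y z‖ * cd e ‖x z‖ * ‖S z‖ ^ 2 := by
    rw [gr_ch hx hy he hr, neg_mul, neg_mul, e1, ip_add_left, ip_smul_left, ip_smul_left, ip_neg_left, ip_neg_left, ip_smul_left, ip_smul_left,
      ip_self, RCLike.norm_conj]
    ring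
  have h2 : 0 ≤ ct r ‖y z‖ * cd e ‖x z‖ * ‖S z‖ ^ 2 := mul_nonneg (mul_nonneg (ct_nonneg _ _) (cd_nonneg he (norm_nonneg _))) (sq_nonneg _)
  have h3 : 0 ≤ ct e ‖x z‖ * cd r ‖y z‖ := mul_nonneg (ct_nonneg _ _) (cd_nonneg hr (norm_nonneg _))
  have hB : 0 ≤ 8 * M * C * e ^ k / r ^ 2 * ‖deriv y z‖ ^ 2 := by positivity
  by_cases hin : ‖x z‖ ≤ e ∧ r / 2 ≤ ‖y z‖
  · have hy0 : 0 < ‖y z‖ := lt_of_lt_of_le (by positivity) hin.2
    have h1 : |ip ((starRingEnd ℂ) (deriv y z / y z)) ((starRingEnd ℂ) (S z))| ≤ 4 * C * e ^ k / r ^ 2 * ‖deriv y z‖ ^ 2 := by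
      refine (abs_ip_le _ _).trans ?_
      rw [RCLike.norm_conj, RCLike.norm_conj, norm_div]
      have g1 : ‖deriv y z‖ / ‖y z‖ ≤ 2 / r * ‖deriv y z‖ := by
        rw [div_le_iff₀ hy0]
        have : 2 / r * ‖deriv y z‖ * ‖y z‖ = ‖deriv y z‖ * (2 / r * ‖y z‖) := by ring
        rw [this]
        refine le_mul_of_one_le_right (norm_nonneg _) ?_
        rw [div_mul_eq_mul_div, le_div_iff₀ hr]
        linarith [hin.2]
      have g2 : ‖S z‖ ≤ 2 / r * (C * e ^ k * ‖deriv y z‖) := by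
        have g3 : ‖x z‖ ^ k ≤ e ^ k := pow_le_pow_left₀ (norm_nonneg _) hin.1 k
        have g4 : ‖S z‖ * ‖y z‖ ≤ C * e ^ k * ‖deriv y z‖ :=
          hSy.trans (mul_le_mul_of_nonneg_right (mul_le_mul_of_nonneg_left g3 hC) (norm_nonneg _))
        have g5 : ‖S z‖ * (r / 2) ≤ C * e ^ k * ‖deriv y z‖ := (mul_le_mul_of_nonneg_left hin.2 (norm_nonneg _)).trans g4
        calc ‖S z‖ = 2 / r * (‖S z‖ * (r / 2)) := by field_simp
          _ ≤ _ := mul_le_mul_of_nonneg_left g5 (by positivity)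
      calc ‖deriv y z‖ / ‖y z‖ * ‖S z‖ ≤ (2 / r * ‖deriv y z‖) * (2 / r * (C * e ^ k * ‖deriv y z‖)) :=
            mul_le_mul g1 g2 (norm_nonneg _) (by positivity)
        _ = 4 * C * e ^ k / r ^ 2 * ‖deriv y z‖ ^ 2 := by
            field_simp
            ring
    have h4 : ct e ‖x z‖ * cd r ‖y z‖ ≤ 2 * M := by
      have h5 := cd_le hM0 hM hr (norm_nonneg (y z))
      have h6 := cd_nonneg hr (norm_nonneg (y z))
      have h7 := ct_le_one e ‖x z‖
      nlinarith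
    have h5 := (abs_le.1 h1).1
    rw [e3]
    have h6 : 0 ≤ 4 * C * e ^ k / r ^ 2 * ‖deriv y z‖ ^ 2 := by positivity
    have h7 : 8 * M * C * e ^ k / r ^ 2 * ‖deriv y z‖ ^ 2 = 2 * M * (4 * C * e ^ k / r ^ 2 * ‖deriv y z‖ ^ 2) := by ring
    rw [h7]
    nlinarith [mul_le_mul_of_nonneg_left h5 h3, mul_le_mul_of_nonneg_right h4 h6]
  · have h1 : ct e ‖x z‖ * cd r ‖y z‖ = 0 := by
      by_cases hx1 : ‖x z‖ ≤ e
      · rw [cd_eq_zero hr, mul_zero]
        left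
        by_contra h4
        exact hin ⟨hx1, (not_le.1 h4).le⟩
      · rw [ct_of_ge he (not_le.1 hx1).le, zero_mul]
    rw [e3, h1]
    linarith

/-- off the support of the cut-off -/
theorem fld_far {z : ℂ} {s : ℝ} (hx : AnalyticAt ℂ x z) (hy : AnalyticAt ℂ y z) (hS : AnalyticAt ℂ S z) (hG : AnalyticAt ℂ G z) (he : 0 < e)
    (hr : 0 < r) (hes : e < s) (hrs : r < s) (h : s ≤ max ‖x z‖ ‖y z‖) :
    fld x y S G κ e r z = (starRingEnd ℂ) (G z + (κ : ℂ) * S z) ∧ dv (fld x y S G κ e r) z = 0 := by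
  have h0 : ch x y e r =ᶠ[𝓝 z] fun _ => 0 := by
    rcases le_max_iff.1 h with h1 | h1
    · filter_upwards [hx.continuousAt.norm.eventually (lt_mem_nhds (hes.trans_le h1))] with w hw
      unfold ch
      rw [ct_of_ge he hw.le, zero_mul]
    · filter_upwards [hy.continuousAt.norm.eventually (lt_mem_nhds (hrs.trans_le h1))] with w hw
      unfold ch
      rw [ct_of_ge hr hw.le, mul_zero]
  refine ⟨?_, ?_⟩
  · unfold fld
    rw [h0.self_of_nhds]
    simp [Complex.conj_ofReal]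
  · rw [dv_fld hx hy hS hG he hr, gr_congr h0, gr_const, ip_zero_left, mul_zero, neg_zero]

/-- the bound of the field -/
theorem norm_fld_le {z : ℂ} {s : ℝ} (hκ : 0 ≤ κ) (he : 0 < e) (hr : 0 < r) (hx : ‖x z‖ ≤ s) (hxS : deriv x z = x z * S z) {C : ℝ} (hC : 0 ≤ C)
    {k : ℕ} (hSy : ‖S z‖ * ‖y z‖ ≤ C * ‖x z‖ ^ k * ‖deriv y z‖) :
    ‖fld x y S G κ e r z‖ ≤ ‖G z‖ + κ * (2 / r * (C * s ^ k * ‖deriv y z‖) + 2 / e * ‖deriv x z‖) := by
  unfold fld
  refine (norm_add_le _ _).trans ?_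
  rw [RCLike.norm_conj, norm_mul, RCLike.norm_conj, Complex.norm_real, Real.norm_eq_abs,
    abs_of_nonneg (mul_nonneg hκ (sub_nonneg.2 (ch_le_one z))), mul_assoc]
  refine add_le_add le_rfl (mul_le_mul_of_nonneg_left ?_ hκ)
  have hs : 0 ≤ s := (norm_nonneg _).trans hx
  have hR : 0 ≤ 2 / r * (C * s ^ k * ‖deriv y z‖) := by positivity
  have hR2 : 0 ≤ 2 / e * ‖deriv x z‖ := by positivity
  have h1 : (1 - ch x y e r z) * ‖S z‖ ≤ ‖S z‖ := mul_le_of_le_one_left (norm_nonneg _) (by linarith [ch_nonneg (x := x) (y := y) (e := e) (r := r) z])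
  by_cases hy1 : r / 2 ≤ ‖y z‖
  · have g3 : ‖x z‖ ^ k ≤ s ^ k := pow_le_pow_left₀ (norm_nonneg _) hx k
    have g4 : ‖S z‖ * ‖y z‖ ≤ C * s ^ k * ‖deriv y z‖ :=
      hSy.trans (mul_le_mul_of_nonneg_right (mul_le_mul_of_nonneg_left g3 hC) (norm_nonneg _))
    have g5 : ‖S z‖ * (r / 2) ≤ C * s ^ k * ‖deriv y z‖ := (mul_le_mul_of_nonneg_left hy1 (norm_nonneg _)).trans g4
    have g6 : ‖S z‖ ≤ 2 / r * (C * s ^ k * ‖deriv y z‖) := by
      calc ‖S z‖ = 2 / r * (‖S z‖ * (r / 2)) := by field_simp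
        _ ≤ _ := mul_le_mul_of_nonneg_left g5 (by positivity)
    linarith
  · by_cases hx1 : e / 2 ≤ ‖x z‖
    · have g1 : ‖deriv x z‖ = ‖x z‖ * ‖S z‖ := by rw [hxS, norm_mul]
      have g2 : e / 2 * ‖S z‖ ≤ ‖deriv x z‖ := by
        rw [g1]
        exact mul_le_mul_of_nonneg_right hx1 (norm_nonneg _)
      have g6 : ‖S z‖ ≤ 2 / e * ‖deriv x z‖ := by
        calc ‖S z‖ = 2 / e * (e / 2 * ‖S z‖) := by field_simp
          _ ≤ _ := mul_le_mul_of_nonneg_left g2 (by positivity)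
      linarith
    · have g1 : ch x y e r z = 1 := by
        unfold ch
        rw [ct_of_le he (not_le.1 hx1).le, ct_of_le hr (not_le.1 hy1).le, one_mul]
      rw [g1, sub_self, zero_mul]
      exact add_nonneg hR hR2

end field

/-! ### the data of the box -/

/-- the divergence of the saddle-node -/
theorem dvg_eq {a b : ℂ × ℂ → ℂ} {v : ℂ × ℂ → ℂ × ℂ} {k : ℕ} (h : ∀ p, v p = (p.1 ^ (k + 1) * a p, p.2 * b p)) {q : ℂ × ℂ} (ha : AnalyticAt ℂ a q)
    (hb : AnalyticAt ℂ b q) : dvg v q = (k + 1) * q.1 ^ k * a q + q.1 ^ (k + 1) * fderiv ℂ a q (1, 0) + (b q + q.2 * fderiv ℂ b q (0, 1)) := by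
  have hv : v = fun p => (p.1 ^ (k + 1) * a p, p.2 * b p) := funext h
  subst hv
  have h1 := (hasFDerivAt_fst (𝕜 := ℂ) (p := q)).pow (k + 1) |>.mul ha.differentiableAt.hasFDerivAt
  have h2 := (hasFDerivAt_snd (𝕜 := ℂ) (p := q)).mul hb.differentiableAt.hasFDerivAt
  have h3 : HasFDerivAt (fun p : ℂ × ℂ => (p.1 ^ (k + 1) * a p, p.2 * b p)) _ q := h1.prodMk h2
  unfold dvg
  rw [h3.fderiv]
  simp
  ring

theorem bdd_closedBall {f : ℂ × ℂ → ℂ} {r : ℝ} (hf : ContinuousOn f (closedBall 0 r)) : ∃ C, 0 ≤ C ∧ ∀ q ∈ closedBall (0 : ℂ × ℂ) r, ‖f q‖ ≤ C := by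
  obtain ⟨C, hC⟩ := (isCompact_closedBall (0 : ℂ × ℂ) r).exists_bound_of_continuousOn hf
  exact ⟨max C 0, le_max_right _ _, fun q hq => (hC q hq).trans (le_max_left _ _)⟩

theorem an_fd {a : ℂ × ℂ → ℂ} {q : ℂ × ℂ} (ha : AnalyticAt ℂ a q) (w : ℂ × ℂ) : AnalyticAt ℂ (fun q => fderiv ℂ a q w) q :=
  ((ContinuousLinearMap.apply ℂ ℂ w).analyticAt (fderiv ℂ a q)).comp ha.fderiv

section crv

variable {p : ℂ → ℂ × ℂ} {a b : ℂ × ℂ → ℂ} {k : ℕ}

/-- `x^k a ζ'` -/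
def Sf (p : ℂ → ℂ × ℂ) (a b : ℂ × ℂ → ℂ) (k : ℕ) (z : ℂ) : ℂ :=
  (p z).1 ^ k * a (p z) * (deriv (fun w => (p w).2) z / ((p z).2 * b (p z)))

/-- the regular part of the field -/
def Gf (p : ℂ → ℂ × ℂ) (a b : ℂ × ℂ → ℂ) (z : ℂ) : ℂ :=
  fderiv ℂ a (p z) (1, 0) / a (p z) * deriv (fun w => (p w).1) z + fderiv ℂ b (p z) (0, 1) / b (p z) * deriv (fun w => (p w).2) z

theorem an1 {z : ℂ} (hp : AnalyticAt ℂ p z) : AnalyticAt ℂ (fun w => (p w).1) z := ((ContinuousLinearMap.fst ℂ ℂ ℂ).analyticAt _).comp hp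

theorem an2 {z : ℂ} (hp : AnalyticAt ℂ p z) : AnalyticAt ℂ (fun w => (p w).2) z := ((ContinuousLinearMap.snd ℂ ℂ ℂ).analyticAt _).comp hp

theorem d1 {z : ℂ} (hp : AnalyticAt ℂ p z) : deriv (fun w => (p w).1) z = (deriv p z).1 :=
  ((ContinuousLinearMap.fst ℂ ℂ ℂ).hasFDerivAt.comp_hasDerivAt z hp.differentiableAt.hasDerivAt).deriv

theorem d2 {z : ℂ} (hp : AnalyticAt ℂ p z) : deriv (fun w => (p w).2) z = (deriv p z).2 :=
  ((ContinuousLinearMap.snd ℂ ℂ ℂ).hasFDerivAt.comp_hasDerivAt z hp.differentiableAt.hasDerivAt).deriv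

theorem an_Gf {z : ℂ} (hp : AnalyticAt ℂ p z) (ha : AnalyticAt ℂ a (p z)) (hb : AnalyticAt ℂ b (p z)) (ha0 : a (p z) ≠ 0) (hb0 : b (p z) ≠ 0) :
    AnalyticAt ℂ (Gf p a b) z := by
  have h1 : AnalyticAt ℂ (fun z => fderiv ℂ a (p z) (1, 0)) z := (an_fd ha (1, 0)).comp hp
  have h2 : AnalyticAt ℂ (fun z => fderiv ℂ b (p z) (0, 1)) z := (an_fd hb (0, 1)).comp hp
  have h3 : AnalyticAt ℂ (fun z => a (p z)) z := ha.comp hp
  have h4 : AnalyticAt ℂ (fun z => b (p z)) z := hb.comp hp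
  exact ((h1.div h3 ha0).mul (an1 hp).deriv).add ((h2.div h4 hb0).mul (an2 hp).deriv)

theorem an_Sf {z : ℂ} (hk : 1 ≤ k) (hp : AnalyticAt ℂ p z) (ha : AnalyticAt ℂ a (p z)) (hb : AnalyticAt ℂ b (p z)) (hb0 : b (p z) ≠ 0)
    (h : (p z).2 ≠ 0 ∨ ∀ᶠ w in 𝓝 z, (p w).1 = 0) : AnalyticAt ℂ (Sf p a b k) z := by
  have h3 : AnalyticAt ℂ (fun z => a (p z)) z := ha.comp hp
  have h4 : AnalyticAt ℂ (fun z => b (p z)) z := hb.comp hp
  rcases h with h | h
  · exact (((an1 hp).pow k).mul h3).mul ((an2 hp).deriv.div ((an2 hp).mul h4) (mul_ne_zero h hb0))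
  · refine (analyticAt_const (v := (0 : ℂ))).congr ?_
    filter_upwards [h] with w hw
    unfold Sf
    rw [hw, zero_pow (by omega), zero_mul, zero_mul]

theorem x_Sf {z : ℂ} (hom : (p z).1 ^ (k + 1) * a (p z) * deriv (fun w => (p w).2) z = (p z).2 * b (p z) * deriv (fun w => (p w).1) z)
    (hb0 : b (p z) ≠ 0) (h : (p z).2 ≠ 0 ∨ ∀ᶠ w in 𝓝 z, (p w).1 = 0) : deriv (fun w => (p w).1) z = (p z).1 * Sf p a b k z := by
  rcases h with h | h
  · have h1 : (p z).2 * b (p z) ≠ 0 := mul_ne_zero h hb0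
    unfold Sf
    field_simp
    rw [pow_succ] at hom
    linear_combination -hom
  · have h1 : (fun w => (p w).1) =ᶠ[𝓝 z] fun _ => 0 := h
    rw [h1.deriv_eq, h.self_of_nhds]
    simp

theorem Sf_le {z : ℂ} (hb0 : b (p z) ≠ 0) {C : ℝ} (hC : 0 ≤ C) (hab : ‖a (p z) / b (p z)‖ ≤ C) :
    ‖Sf p a b k z‖ * ‖(p z).2‖ ≤ C * ‖(p z).1‖ ^ k * ‖deriv (fun w => (p w).2) z‖ := by
  by_cases h : (p z).2 = 0
  · rw [h, norm_zero, mul_zero]
    positivity
  · have e1 : Sf p a b k z * (p z).2 = a (p z) / b (p z) * (p z).1 ^ k * deriv (fun w => (p w).2) z := by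
      unfold Sf
      field_simp
    rw [← norm_mul, e1, norm_mul, norm_mul, norm_pow]
    exact mul_le_mul_of_nonneg_right (mul_le_mul_of_nonneg_right hab (by positivity)) (norm_nonneg _)

end crv

variable {M : ℕ} {P : Ideal (MvPolynomial (Fin (M + 1)) ℂ)} {FF : Set (EN M × EN M)}

/-- the logarithmic derivative of the flat section -/
theorem DD_eq {v : ℂ × ℂ → ℂ × ℂ} {c : ℂ → ℂ × ℂ} {g a b g₁ : ℂ × ℂ → ℂ} {k : ℕ} {z : ℂ} (h : ∀ p, v p = (p.1 ^ (k + 1) * a p, p.2 * b p))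
    (hp : AnalyticAt ℂ c z) (ha : AnalyticAt ℂ a (c z)) (hb : AnalyticAt ℂ b (c z)) (ha0 : a (c z) ≠ 0)
    (hb0 : b (c z) ≠ 0) (hg : ∀ p, g p = g₁ p * p.2) (hg0 : g (c z) ≠ 0) (κ : ℕ)
    (h₁ : (∀ p, g₁ p = p.1) ∧ κ = k ∨ (∀ p, g₁ p = 1) ∧ κ = k + 1)
    (hom : (c z).1 ^ (k + 1) * a (c z) * deriv (fun w => (c w).2) z = (c z).2 * b (c z) * deriv (fun w => (c w).1) z) :
    DDv v g c z = Gf c a b z + κ * Sf c a b k z := by
  have hy0 : (c z).2 ≠ 0 := by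
    intro h0
    rw [hg, h0, mul_zero] at hg0
    exact hg0 rfl
  have hv2 : (v (c z)).2 = (c z).2 * b (c z) := by rw [h]
  have hzt : ztv v c z = deriv (fun w => (c w).2) z / ((c z).2 * b (c z)) := by
    unfold ztv
    rw [if_neg (by rw [hv2]; exact mul_ne_zero hy0 hb0), hv2, d2 hp]
  unfold DDv
  rw [dvg_eq h ha hb, hzt]
  set X := (c z).1 with hX
  set Y := (c z).2 with hY
  set X' := deriv (fun w => (c w).1) z with hX'
  set Y' := deriv (fun w => (c w).2) z with hY'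
  have hdx : HasDerivAt (fun w => (c w).1) X' z := (an1 hp).differentiableAt.hasDerivAt
  have hdy : HasDerivAt (fun w => (c w).2) Y' z := (an2 hp).differentiableAt.hasDerivAt
  unfold Gf Sf
  rw [← hX, ← hY, ← hX', ← hY']
  rcases h₁ with ⟨h₁, rfl⟩ | ⟨h₁, rfl⟩
  · have hX0 : X ≠ 0 := by
      intro h0
      rw [hg, h₁, ← hX, h0, zero_mul] at hg0
      exact hg0 rfl
    have e1 : deriv (fun w => g (c w)) z = X' * Y + X * Y' := by
      have : (fun w => g (c w)) = fun w => (c w).1 * (c w).2 := by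
        funext w
        rw [hg, h₁]
      rw [this]
      exact (hdx.mul hdy).deriv
    rw [e1, hg, h₁, ← hX, ← hY]
    have hX2 : X' = X ^ (κ + 1) * a (c z) * Y' / (Y * b (c z)) := by
      rw [eq_div_iff (mul_ne_zero hy0 hb0)]
      linear_combination -hom
    rw [hX2]
    field_simp
    ring
  · have e1 : deriv (fun w => g (c w)) z = Y' := by
      have : (fun w => g (c w)) = fun w => (c w).2 := by
        funext w
        rw [hg, h₁, one_mul]
      rw [this]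
    rw [e1, hg, h₁, one_mul, ← hY]
    have hX2 : X' = X ^ (k + 1) * a (c z) * Y' / (Y * b (c z)) := by
      rw [eq_div_iff (mul_ne_zero hy0 hb0)]
      linear_combination -hom
    rw [hX2]
    push_cast
    field_simp
    ring

end Pool.Agent.MQ.SNL

namespace Pool.Agent.MQ

open Pool.Agent.H36.BP (EN fs)
open Pool.Agent.H30M (tau tau_nonneg)
open Pool.Agent.H17EF (coneE)
open AxisA SNL

variable {M : ℕ} {P : Ideal (MvPolynomial (Fin (M + 1)) ℂ)} {FF : Set (EN M × EN M)}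

/-- **The normal bundle half of the package of a saddle-node whose weak separatrix is algebraic**, in one variable, with any density `lm`. -/
theorem localN1_saddleNode {v : ℂ × ℂ → ℂ × ℂ} {ρ : ℝ} {Om : Set ℂ} {c : ℂ → ℂ × ℂ} (hc : Crv1 v ρ Om c) {g a b g₁ : ℂ × ℂ → ℂ} {k : ℕ} (hk : 1 ≤ k)
    (ha : AnalyticOnNhd ℂ a (closedBall 0 ρ)) (hb : AnalyticOnNhd ℂ b (closedBall 0 ρ)) (ha0 : ∀ p ∈ closedBall (0 : ℂ × ℂ) ρ, a p ≠ 0)
    (hb0 : ∀ p ∈ closedBall (0 : ℂ × ℂ) ρ, b p ≠ 0) (h : ∀ p, v p = (p.1 ^ (k + 1) * a p, p.2 * b p))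
    (hg : ∀ p, g p = g₁ p * p.2) (h₁ : (∀ p, g₁ p = p.1) ∨ ∀ p, g₁ p = 1) (hgF : ∀ z ∈ Om, c z ≠ 0 → g (c z) ≠ 0) {lm : ℂ → ℝ} (hlc : Continuous lm)
    {CB : ℝ} (hlm : ∀ z ∈ Om, ‖deriv c z‖ ≤ CB * lm z) {I Λ : ℝ → ℝ} (hI : ∀ R, 1 ≤ R → ∫ z, tau R z * lm z ^ 2 ≤ I R)
    (hΛ : ∀ R, 1 ≤ R → 0 ≤ Λ R) {s : ℝ} (hs : 0 < s) {δ : ℝ} (hδ : 0 < δ) : LocalN1 v g Om c I Λ s δ := by
  -- the data
  have hO : IsOpen Om := hc.isOpen
  have hp : ∀ z ∈ Om, AnalyticAt ℂ c z := hc.an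
  have hpb : ∀ z ∈ Om, c z ∈ closedBall (0 : ℂ × ℂ) ρ := fun z hz => ball_subset_closedBall (hc.mem z hz)
  have hom : ∀ z ∈ Om, (c z).1 ^ (k + 1) * a (c z) * deriv (fun w => (c w).2) z =
      (c z).2 * b (c z) * deriv (fun w => (c w).1) z := by
    intro z hz
    have h2 := hc.ode z hz
    rw [h] at h2
    rw [d1 (hp z hz), d2 (hp z hz)]
    exact sub_eq_zero.1 h2
  have hyx : ∀ z ∈ Om, (c z).2 = 0 → (c z).1 = 0 := by
    intro z hz h2
    by_contra h3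
    refine hgF z hz (fun h4 => h3 (by rw [h4]; rfl)) ?_
    rw [hg, h2, mul_zero]
  have hal : ∀ z ∈ Om, (c z).2 ≠ 0 ∨ ∀ᶠ w in 𝓝 z, (c w).1 = 0 := by
    intro z hz
    by_cases h2 : (c z).2 = 0
    · right
      have hOz := hO.mem_nhds hz
      exact ev_zero hk (an1 (hp z hz)) (an2 (hp z hz)) ((ha _ (hpb z hz)).comp (hp z hz)) ((hb _ (hpb z hz)).comp (hp z hz)) (ha0 _ (hpb z hz))
        (hb0 _ (hpb z hz)) (hyx z hz h2) h2 (by filter_upwards [hOz] with w hw using hom w hw) (by filter_upwards [hOz] with w hw using hyx w hw)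
    · exact Or.inl h2
  obtain ⟨κ, hκ⟩ : ∃ κ : ℕ, (∀ p, g₁ p = p.1) ∧ κ = k ∨ (∀ p, g₁ p = 1) ∧ κ = k + 1 := by
    rcases h₁ with h₁ | h₁
    · exact ⟨k, Or.inl ⟨h₁, rfl⟩⟩
    · exact ⟨k + 1, Or.inr ⟨h₁, rfl⟩⟩
  -- the constants
  obtain ⟨C, hC, hab⟩ := bdd_closedBall (f := fun q => a q / b q) (r := ρ) (ha.continuousOn.div hb.continuousOn hb0)
  obtain ⟨C₁, hC₁, hax⟩ := bdd_closedBall (f := fun q => fderiv ℂ a q (1, 0) / a q) (r := ρ)
    (ContinuousOn.div (fun q hq => (an_fd (ha q hq) (1, 0)).continuousAt.continuousWithinAt) ha.continuousOn ha0)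
  obtain ⟨C₂, hC₂, hby⟩ := bdd_closedBall (f := fun q => fderiv ℂ b q (0, 1) / b q) (r := ρ)
    (ContinuousOn.div (fun q hq => (an_fd (hb q hq) (0, 1)).continuousAt.continuousWithinAt) hb.continuousOn hb0)
  obtain ⟨Mt, hM0, hM⟩ := st_deriv_bdd
  set r : ℝ := s / 2 with hr
  have hr0 : 0 < r := by positivity
  obtain ⟨e, he0, hes, hesm⟩ : ∃ e : ℝ, 0 < e ∧ e < s ∧ κ * (8 * Mt * C * e ^ k / r ^ 2) * CB ^ 2 ≤ δ := by
    set D : ℝ := κ * (8 * Mt * C / r ^ 2) * CB ^ 2 with hD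
    have hD0 : 0 ≤ D := by positivity
    refine ⟨min (min (s / 2) 1) (δ / (D + 1)), by positivity, ?_, ?_⟩
    · exact lt_of_le_of_lt ((min_le_left _ _).trans (min_le_left _ _)) (by linarith)
    · set e := min (min (s / 2) 1) (δ / (D + 1)) with he
      have h0 : 0 ≤ e := by positivity
      have h2 : e ≤ 1 := (min_le_left _ _).trans (min_le_right _ _)
      have h3 : e ^ k ≤ e := by
        calc e ^ k ≤ e ^ 1 := pow_le_pow_of_le_one h0 h2 hk
          _ = e := pow_one e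
      have h4 : e ≤ δ / (D + 1) := min_le_right _ _
      have h5 : κ * (8 * Mt * C * e ^ k / r ^ 2) * CB ^ 2 = D * e ^ k := by
        rw [hD]
        ring
      rw [h5]
      have h6 : D * e ^ k ≤ D * (δ / (D + 1)) := mul_le_mul_of_nonneg_left (h3.trans h4) hD0
      refine h6.trans ?_
      rw [mul_div_assoc', div_le_iff₀ (by positivity)]
      nlinarith
  -- the field
  set x : ℂ → ℂ := fun w => (c w).1 with hx
  set y : ℂ → ℂ := fun w => (c w).2 with hy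
  set S : ℂ → ℂ := Sf c a b k with hS
  set G : ℂ → ℂ := Gf c a b with hG
  have hxa : ∀ z ∈ Om, AnalyticAt ℂ x z := fun z hz => an1 (hp z hz)
  have hya : ∀ z ∈ Om, AnalyticAt ℂ y z := fun z hz => an2 (hp z hz)
  have hSa : ∀ z ∈ Om, AnalyticAt ℂ S z := fun z hz => an_Sf hk (hp z hz) (ha _ (hpb z hz)) (hb _ (hpb z hz)) (hb0 _ (hpb z hz)) (hal z hz)
  have hGa : ∀ z ∈ Om, AnalyticAt ℂ G z := fun z hz => an_Gf (hp z hz) (ha _ (hpb z hz)) (hb _ (hpb z hz)) (ha0 _ (hpb z hz)) (hb0 _ (hpb z hz))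
  have hxS : ∀ z ∈ Om, deriv x z = x z * S z := fun z hz => x_Sf (hom z hz) (hb0 _ (hpb z hz)) (hal z hz)
  have hSy : ∀ z ∈ Om, ‖S z‖ * ‖y z‖ ≤ C * ‖x z‖ ^ k * ‖deriv y z‖ := fun z hz => Sf_le (hb0 _ (hpb z hz)) hC (hab _ (hpb z hz))
  have hx' : ∀ z ∈ Om, ‖deriv x z‖ ≤ ‖deriv c z‖ := fun z hz => by
    rw [hx, d1 (hp z hz)]
    exact norm_fst_le _
  have hy' : ∀ z ∈ Om, ‖deriv y z‖ ≤ ‖deriv c z‖ := fun z hz => by
    rw [hy, d2 (hp z hz)]
    exact norm_snd_le _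
  set η : ℂ → ℂ := fld x y S G κ e r with hη
  have hηc : ∀ z ∈ Om, ContDiffAt ℝ 1 η z := fun z hz => contDiffAt_fld (hxa z hz) (hya z hz) (hSa z hz) (hGa z hz) he0 hr0
  have herr : ∀ z ∈ Om, max 0 (-dv η z) ≤ δ * lm z ^ 2 := by
    intro z hz
    refine max_le (by positivity) ?_
    rw [hη, dv_fld (hxa z hz) (hya z hz) (hSa z hz) (hGa z hz) he0 hr0, neg_neg]
    have h2 := ip_ch_le hM0 hM (hxa z hz) (hya z hz) he0 hr0 (hxS z hz) hC (hSy z hz)
    have h3 : ‖deriv y z‖ ≤ CB * lm z := (hy' z hz).trans (hlm z hz)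
    have h4 : ‖deriv y z‖ ^ 2 ≤ CB ^ 2 * lm z ^ 2 := by
      rw [← mul_pow]
      exact pow_le_pow_left₀ (norm_nonneg _) h3 2
    calc (κ : ℝ) * ip (gr (ch x y e r) z) ((starRingEnd ℂ) (S z)) ≤ κ * (8 * Mt * C * e ^ k / r ^ 2 * (CB ^ 2 * lm z ^ 2)) :=
          mul_le_mul_of_nonneg_left (h2.trans (mul_le_mul_of_nonneg_left h4 (by positivity))) (Nat.cast_nonneg _)
      _ = κ * (8 * Mt * C * e ^ k / r ^ 2) * CB ^ 2 * lm z ^ 2 := by ring
      _ ≤ δ * lm z ^ 2 := mul_le_mul_of_nonneg_right hesm (sq_nonneg _)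
  set C₃ : ℝ := C₁ + C₂ + κ * (2 / r * (C * s ^ k) + 2 / e) with hC₃
  refine ⟨C₃, η, fun z => max 0 (-dv η z), by positivity, fun z hz => (hηc z hz).contDiffWithinAt, ?_, ?_, ?_, fun z _ => le_max_left _ _, ?_, ?_⟩
  · intro z hz
    have h2 : ContinuousAt (fun z => max 0 (-dv η z)) z := 
      continuousAt_const.max (continuousAt_dv (hηc z hz)).neg
    exact h2.continuousWithinAt
  · intro z hz hzs
    have h2 : s ≤ max ‖x z‖ ‖y z‖ := by
      have h3 : s ≤ ‖c z‖ := by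
        rw [mem_ball_zero_iff] at hzs
        exact not_lt.1 hzs
      rwa [Prod.norm_def] at h3
    have h3 := fld_far (κ := κ) (hxa z hz) (hya z hz) (hSa z hz) (hGa z hz) he0 hr0 hes (by rw [hr]; linarith) h2
    refine ⟨?_, ?_⟩
    · have hcc : c z ≠ 0 := by
        intro h4
        rw [h4] at hzs
        exact hzs (mem_ball_self hs)
      rw [DD_eq h (hp z hz) (ha _ (hpb z hz)) (hb _ (hpb z hz)) (ha0 _ (hpb z hz)) (hb0 _ (hpb z hz)) hg (hgF z hz hcc) κ hκ (hom z hz)]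
      have h4 := h3.1
      rw [Complex.ofReal_natCast] at h4
      exact h4
    · show max 0 (-dv η z) = 0
      rw [h3.2, neg_zero, max_self]
  · intro z hz hzs
    have h2 : ‖x z‖ ≤ s := by
      have h3 : ‖c z‖ < s := mem_ball_zero_iff.1 hzs
      exact (norm_fst_le _).trans h3.le
    have h3 := norm_fld_le (G := G) (κ := κ) (Nat.cast_nonneg κ) he0 hr0 h2 (hxS z hz) hC (hSy z hz)
    have h4 : ‖G z‖ ≤ C₁ * ‖deriv c z‖ + C₂ * ‖deriv c z‖ := by
      rw [hG]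
      unfold Gf
      refine (norm_add_le _ _).trans (add_le_add ?_ ?_)
      · rw [norm_mul]
        exact mul_le_mul (hax _ (hpb z hz)) (hx' z hz) (norm_nonneg _) hC₁
      · rw [norm_mul]
        exact mul_le_mul (hby _ (hpb z hz)) (hy' z hz) (norm_nonneg _) hC₂
    have h5 : (κ : ℝ) * (2 / r * (C * s ^ k * ‖deriv y z‖) + 2 / e * ‖deriv x z‖) ≤
        κ * (2 / r * (C * s ^ k * ‖deriv c z‖) + 2 / e * ‖deriv c z‖) := by
      refine mul_le_mul_of_nonneg_left (add_le_add ?_ ?_) (Nat.cast_nonneg _)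
      · exact mul_le_mul_of_nonneg_left (mul_le_mul_of_nonneg_left (hy' z hz) (by positivity)) (by positivity)
      · exact mul_le_mul_of_nonneg_left (hx' z hz) (by positivity)
    calc ‖η z‖ ≤ ‖G z‖ + κ * (2 / r * (C * s ^ k * ‖deriv y z‖) + 2 / e * ‖deriv x z‖) := h3
      _ ≤ C₁ * ‖deriv c z‖ + C₂ * ‖deriv c z‖ +
          κ * (2 / r * (C * s ^ k * ‖deriv c z‖) + 2 / e * ‖deriv c z‖) := add_le_add h4 h5
      _ = C₃ * ‖deriv c z‖ := by
          rw [hC₃]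
          ring
  · intro z hz
    have := le_max_right 0 (-dv η z)
    show 0 ≤ dv η z + max 0 (-dv η z)
    linarith
  · intro R hR
    have hi : Integrable fun z => tau R z * (δ * lm z ^ 2) :=
      Pool.Agent.H30M.integrable_tau_mul hR (continuous_const.mul (hlc.pow 2))
    have h2 : ∫ z in Om, tau R z * max 0 (-dv η z) ≤ ∫ z in Om, tau R z * (δ * lm z ^ 2) := by
      refine integral_mono_of_nonneg (Eventually.of_forall fun z => mul_nonneg (tau_nonneg hR z) (le_max_left _ _)) hi.integrableOn ?_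
      filter_upwards [self_mem_ae_restrict hO.measurableSet] with z hz
      exact mul_le_mul_of_nonneg_left (herr z hz) (tau_nonneg hR z)
    have h3 : ∫ z in Om, tau R z * (δ * lm z ^ 2) ≤ ∫ z, tau R z * (δ * lm z ^ 2) :=
      setIntegral_le_integral hi (Eventually.of_forall fun z => mul_nonneg (tau_nonneg hR z) (by positivity))
    have h4 : ∫ z, tau R z * (δ * lm z ^ 2) = δ * ∫ z, tau R z * lm z ^ 2 := by
      rw [← integral_const_mul]
      refine integral_congr_ae (Eventually.of_forall fun z => ?_)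
      show tau R z * (δ * lm z ^ 2) = δ * (tau R z * lm z ^ 2)
      ring
    have h5 := mul_le_mul_of_nonneg_left (hI R hR) hδ.le
    have h6 : 0 ≤ C₃ * Λ R := mul_nonneg (by positivity) (hΛ R hR)
    have h7 : 0 ≤ C₃ := by positivity
    linarith

end Pool.Agent.MQ
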